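import Pool.Agent.W114.PQ.Stm
import Pool.Agent.H951R4.OD.B6

set_option autoImplicit false

/-!
# Singer data (task DS of project PQ)
-/

namespace Pool.Agent.W52.PQ

open Finset Polynomial
open Pool.Agent.H951R4.OD (ch PI b6_PR)
open Pool.Agent.H474R2.PG (rho PR Sg)
open Pool.Agent.W114.PQ

theorem mod_iff (q d : ℕ) (hq : 1 ≤ q) (hd : 1 < d) : q % d = 1 ↔ d ∣ q - 1 := by
  constructor
  · intro h
    exact ⟨q / d, by have := Nat.div_add_mod q d; omega⟩
  · rintro ⟨k, hk⟩
    have : q = 1 + d * k := by omega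
    rw [this, Nat.add_mul_mod_self_left, Nat.mod_eq_of_lt hd]

theorem card_order (q : ℕ) [hq : Fact q.Prime] (d : ℕ) (hd : 1 < d) :
    ((univ : Finset (ZMod q)).filter (fun x : ZMod q => orderOf x = d)).card =
      if q % d = 1 then d.totient else 0 := by
  have h1 : ((univ : Finset (ZMod q)).filter (fun x : ZMod q => orderOf x = d)).card =
      ((univ : Finset (ZMod q)ˣ).filter (fun x : (ZMod q)ˣ => orderOf x = d)).card := by
    symm
    refine Finset.card_bij (fun u _ => (u : ZMod q)) ?_ ?_ ?_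
    · intro u hu
      rw [mem_filter] at hu ⊢
      exact ⟨mem_univ _, by rw [orderOf_units]; exact hu.2⟩
    · intro u _ v _ h
      exact Units.ext h
    · intro x hx
      rw [mem_filter] at hx
      have hx0 : x ≠ 0 := by
        rintro rfl
        have := hx.2
        rw [orderOf_zero] at this
        omega
      refine ⟨Units.mk0 x hx0, ?_, rfl⟩
      rw [mem_filter]
      refine ⟨mem_univ _, ?_⟩
      rw [← orderOf_units]
      exact hx.2
  rw [h1]
  have hc : Fintype.card (ZMod q)ˣ = q - 1 := ZMod.card_units q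
  split_ifs with h
  · rw [mod_iff q d hq.out.one_le hd] at h
    exact IsCyclic.card_orderOf_eq_totient (by rw [hc]; exact h)
  · rw [mod_iff q d hq.out.one_le hd] at h
    rw [Finset.card_eq_zero, Finset.filter_eq_empty_iff]
    intro u _ hu
    apply h
    rw [← hc, ← hu]
    exact orderOf_dvd_card

theorem card_range_mul (q k : ℕ) (P : ℕ → Prop) [DecidablePred P] (hP : ∀ n, P (n + q) ↔ P n) :
    ((range (q * k)).filter P).card = k * ((range q).filter P).card := by
  induction k with
  | zero => simp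
  | succ k ih =>
    have h1 : range (q * (k + 1)) = range (q * k) ∪ Ico (q * k) (q * k + q) := by
      ext a
      simp only [mem_range, mem_union, mem_Ico]
      rw [Nat.mul_succ]
      omega
    have h2 : Disjoint ((range (q * k)).filter P) ((Ico (q * k) (q * k + q)).filter P) := by
      apply Finset.disjoint_filter_filter
      rw [Finset.disjoint_left]
      intro a ha hb
      rw [mem_range] at ha
      rw [mem_Ico] at hb
      omega
    rw [h1, Finset.filter_union, Finset.card_union_of_disjoint h2, ih,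
      Nat.filter_Ico_card_eq_of_periodic _ _ _ (fun n => propext (hP n)),
      Nat.count_eq_card_filter_range]
    ring

theorem card_range_zmod (q : ℕ) [NeZero q] (P : ZMod q → Prop) [DecidablePred P] :
    ((range q).filter (fun n : ℕ => P (n : ZMod q))).card = (univ.filter P).card := by
  refine Finset.card_bij (fun a _ => (a : ZMod q)) ?_ ?_ ?_
  · intro a ha
    rw [mem_filter] at ha ⊢
    exact ⟨mem_univ _, ha.2⟩
  · intro a ha b hb hab
    rw [mem_filter, mem_range] at ha hb
    have h1 := (ZMod.natCast_eq_natCast_iff' a b q).1 hab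
    rwa [Nat.mod_eq_of_lt ha.1, Nat.mod_eq_of_lt hb.1] at h1
  · intro x hx
    rw [mem_filter] at hx
    refine ⟨x.val, ?_, ZMod.natCast_zmod_val x⟩
    rw [mem_filter, mem_range, ZMod.natCast_zmod_val]
    exact ⟨ZMod.val_lt x, hx.2⟩

theorem card_T (L q : ℕ) [hq : Fact q.Prime] (hL : L ≠ 0) (P : ZMod q → Prop) [DecidablePred P]
    (hP : ∀ x, P x ↔ ∃ d : ℕ, 1 < d ∧ d ∣ L ∧ orderOf x = d) :
    (univ.filter P).card =
      ∑ d ∈ L.divisors.filter (fun d => 1 < d), (if q % d = 1 then d.totient else 0) := by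
  rw [Finset.card_eq_sum_card_fiberwise (f := fun x : ZMod q => orderOf x)
    (t := L.divisors.filter (fun d => 1 < d))]
  · refine Finset.sum_congr rfl fun d hd => ?_
    rw [mem_filter, Nat.mem_divisors] at hd
    rw [← card_order q d hd.2]
    congr 1
    ext x
    rw [mem_filter, mem_filter, mem_filter]
    constructor
    · rintro ⟨_, h⟩
      exact ⟨mem_univ _, h⟩
    · rintro ⟨_, h⟩
      exact ⟨⟨mem_univ _, (hP x).2 ⟨d, hd.2, hd.1.1, h⟩⟩, h⟩
  · intro x hx
    rw [mem_coe, mem_filter] at hx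
    obtain ⟨d, h1, h2, h3⟩ := (hP x).1 hx.2
    rw [mem_coe, mem_filter, Nat.mem_divisors]
    change (orderOf x ∣ L ∧ L ≠ 0) ∧ 1 < orderOf x
    rw [h3]
    exact ⟨⟨h2, hL⟩, h1⟩

theorem rho_cyc (d p : ℕ) (hd : 1 < d) (hp : p.Prime) (hpd : ¬ p ∣ d) :
    rho (cyclotomic d ℤ) p = if p % d = 1 then d.totient else 0 := by
  have := Fact.mk hp
  rw [← card_order p d hd]
  have h0 : ((d : ℕ) : ZMod p) ≠ 0 := by
    intro h
    exact hpd ((ZMod.natCast_eq_zero_iff d p).1 h)
  have : NeZero ((d : ℕ) : ZMod p) := ⟨h0⟩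
  rw [← card_range_zmod p (fun x : ZMod p => orderOf x = d)]
  unfold rho
  congr 1
  refine Finset.filter_congr fun a _ => ?_
  rw [← IsPrimitiveRoot.iff_orderOf, ← isRoot_cyclotomic_iff, IsRoot.def,
    ← ZMod.intCast_zmod_eq_zero_iff_dvd, ← map_cyclotomic_int d (ZMod p), eval_map]
  have h : ((eval (a : ℤ) (cyclotomic d ℤ) : ℤ) : ZMod p) =
      eval₂ (Int.castRingHom (ZMod p)) (a : ZMod p) (cyclotomic d ℤ) := by
    have h1 := Polynomial.hom_eval₂ (cyclotomic d ℤ) (RingHom.id ℤ) (Int.castRingHom (ZMod p))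
      (a : ℤ)
    rw [RingHom.comp_id, eval₂_id] at h1
    rw [eq_intCast, eq_intCast] at h1
    rw [h1]
    push_cast
    rfl
  rw [h]

theorem mert_d (d : ℕ) (hd : 1 < d) : ∃ C : ℝ, ∀ z : ℕ, 2 ≤ z →
    |∑ q ∈ PI 0 z, (if q % d = 1 then (d.totient : ℝ) else 0) / q -
      Real.log (Real.log z)| ≤ C := by
  obtain ⟨C1, hC10, hC1⟩ := Pool.Agent.H474R2.GE.mertens_rho (cyclotomic d ℤ)
    (cyclotomic.irreducible (by omega))
    (by rw [natDegree_cyclotomic]; exact Nat.totient_pos.2 (by omega))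
  set g : ℕ → ℝ := fun q => if q % d = 1 then (d.totient : ℝ) else 0 with hg
  set E : ℝ := ∑ q ∈ d.divisors, |(rho (cyclotomic d ℤ) q : ℝ) - g q| / q with hE
  have hE0 : 0 ≤ E := Finset.sum_nonneg fun q _ => by positivity
  have hbig : ∀ z : ℕ, 3 ≤ z → |∑ q ∈ PI 0 z, g q / q - Real.log (Real.log z)| ≤ C1 + E := by
    intro z hz
    have h1 := hC1 z (by exact_mod_cast hz)
    have h2 : |Sg (rho (cyclotomic d ℤ)) z - ∑ q ∈ PI 0 z, g q / q| ≤ E := by
      unfold Sg
      rw [b6_PR, ← Finset.sum_sub_distrib]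
      refine (Finset.abs_sum_le_sum_abs _ _).trans ?_
      rw [← Finset.sum_filter_add_sum_filter_not (PI 0 z) (fun q => q ∣ d)]
      have h3 : ∑ q ∈ (PI 0 z).filter (fun q => ¬ q ∣ d),
          |(rho (cyclotomic d ℤ) q : ℝ) / q - g q / q| = 0 := by
        refine Finset.sum_eq_zero fun q hq => ?_
        rw [mem_filter] at hq
        have hp : q.Prime := (mem_filter.1 hq.1).2
        rw [rho_cyc d q hd hp hq.2, hg]
        simp only
        split_ifs <;> simp
      rw [h3, add_zero]
      have h4 : ∀ q ∈ (PI 0 z).filter (fun q => q ∣ d),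
          |(rho (cyclotomic d ℤ) q : ℝ) / q - g q / q| =
            |(rho (cyclotomic d ℤ) q : ℝ) - g q| / q := by
        intro q _
        rw [← sub_div, abs_div, abs_of_nonneg (Nat.cast_nonneg (α := ℝ) q)]
      rw [Finset.sum_congr rfl h4]
      refine Finset.sum_le_sum_of_subset_of_nonneg ?_ fun q _ _ => by positivity
      intro q hq
      rw [mem_filter] at hq
      rw [Nat.mem_divisors]
      exact ⟨hq.2, by omega⟩
    rw [abs_le] at h1 h2 ⊢
    constructor <;> linarith [h1.1, h1.2, h2.1, h2.2]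
  refine ⟨C1 + E + |∑ q ∈ PI 0 2, g q / q - Real.log (Real.log (2 : ℕ))|, fun z hz => ?_⟩
  rcases Nat.lt_or_ge z 3 with h | h
  · have : z = 2 := by omega
    subst this
    linarith
  · have := hbig z h
    have h5 := abs_nonneg (∑ q ∈ PI 0 2, g q / q - Real.log (Real.log (2 : ℕ)))
    linarith

theorem sum_PI_sub (f : ℕ → ℝ) (y z : ℕ) (h : y ≤ z) :
    ∑ q ∈ PI y z, f q = ∑ q ∈ PI 0 z, f q - ∑ q ∈ PI 0 y, f q := by
  have h1 : ∑ q ∈ PI 0 z, f q = ∑ q ∈ PI 0 y, f q + ∑ q ∈ PI y z, f q := by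
    rw [← Finset.sum_union]
    · refine Finset.sum_congr ?_ fun _ _ => rfl
      unfold PI
      rw [← Finset.filter_union, Finset.Ioc_union_Ioc_eq_Ioc (by omega) h]
    · unfold PI
      apply Finset.disjoint_filter_filter
      rw [Finset.disjoint_left]
      intro a ha hb
      rw [mem_Ioc] at ha hb
      omega
  linarith

theorem mert_all (D : Finset ℕ) (hD : ∀ d ∈ D, 1 < d) : ∃ C : ℝ, ∀ z : ℕ, 2 ≤ z →
    |∑ q ∈ PI 0 z, (∑ d ∈ D, (if q % d = 1 then (d.totient : ℝ) else 0)) / q -
      D.card * Real.log (Real.log z)| ≤ C := by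
  classical
  induction D using Finset.induction_on with
  | empty => exact ⟨0, fun z _ => by simp⟩
  | insert d D hd ih =>
    obtain ⟨C1, hC1⟩ := ih fun e he => hD e (Finset.mem_insert_of_mem he)
    obtain ⟨C2, hC2⟩ := mert_d d (hD d (Finset.mem_insert_self d D))
    refine ⟨C1 + C2, fun z hz => ?_⟩
    have h1 := hC1 z hz
    have h2 := hC2 z hz
    have h3 : ∑ q ∈ PI 0 z, (∑ e ∈ insert d D, (if q % e = 1 then (e.totient : ℝ) else 0)) / q =
        ∑ q ∈ PI 0 z, (∑ e ∈ D, (if q % e = 1 then (e.totient : ℝ) else 0)) / q +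
        ∑ q ∈ PI 0 z, (if q % d = 1 then (d.totient : ℝ) else 0) / q := by
      rw [← Finset.sum_add_distrib]
      refine Finset.sum_congr rfl fun q _ => ?_
      rw [Finset.sum_insert hd, add_div]
      ring
    rw [h3, Finset.card_insert_of_notMem hd]
    push_cast
    rw [abs_le] at h1 h2 ⊢
    constructor <;> nlinarith [h1.1, h1.2, h2.1, h2.2]

theorem rho_le (L q : ℕ) :
    ∑ d ∈ L.divisors.filter (fun d => 1 < d), (if q % d = 1 then (d.totient : ℝ) else 0) ≤ L := by
  have h1 : ∑ d ∈ L.divisors.filter (fun d => 1 < d),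
      (if q % d = 1 then (d.totient : ℝ) else 0) ≤ ∑ d ∈ L.divisors, (d.totient : ℝ) := by
    refine (Finset.sum_le_sum fun d _ => ?_).trans
      (Finset.sum_le_sum_of_subset_of_nonneg (Finset.filter_subset _ _) fun d _ _ => by positivity)
    split_ifs
    · exact le_rfl
    · positivity
  refine h1.trans (le_of_eq ?_)
  exact_mod_cast Nat.sum_totient L

theorem rho_ge (L q : ℕ) :
    0 ≤ ∑ d ∈ L.divisors.filter (fun d => 1 < d), (if q % d = 1 then (d.totient : ℝ) else 0) := by
  refine Finset.sum_nonneg fun d _ => ?_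
  split_ifs
  · positivity
  · exact le_rfl

theorem ch_three (q : ℕ) (hq : q % 2 = 1) (h3 : q % 3 = 2) : ch (-3) q = -1 := by
  unfold ch
  rw [if_pos hq, jacobiSym.mod_right (-3) (Nat.odd_iff.2 hq)]
  have h : q % (4 * (-3 : ℤ).natAbs) = 5 ∨ q % (4 * (-3 : ℤ).natAbs) = 11 := by
    have e : (-3 : ℤ).natAbs = 3 := rfl
    rw [e]
    omega
  rcases h with h | h
  · rw [h]
    have : jacobiSym (-3) 5 = -1 := by norm_num
    rw [this]
    norm_num
  · rw [h]
    have : jacobiSym (-3) 11 = -1 := by norm_num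
    rw [this]
    norm_num

theorem ch_le_one (D : ℤ) (q : ℕ) : ch D q ≤ 1 := by
  unfold ch
  split_ifs
  · rcases jacobiSym.trichotomy D q with h | h | h <;> rw [h] <;> norm_num
  · norm_num

theorem ds : S_DS := by
  intro L hodd h3
  have hL : 0 < L := hodd.pos
  have h3m : 3 ∈ L.divisors.filter (fun d => 1 < d) := by
    rw [mem_filter, Nat.mem_divisors]
    exact ⟨⟨h3, hL.ne'⟩, by norm_num⟩
  refine
    { c0_pos := ?_, two := ?_, m_odd := hodd, e01 := Or.inr rfl, neg := ?_, κ1 := ?_, τ1 := ?_,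
      β01 := Or.inl rfl, rho_low := ?_, rho_up := ?_, per := ?_, ord := ?_, cnt := ?_,
      mert := ?_ }
  · change 0 < 6 * L
    omega
  · change 2 ∣ 6 * L
    exact ⟨3 * L, by ring⟩
  · change (-3 : ℤ) < 0
    norm_num
  · change (1 : ℝ) ≤ (L : ℝ)
    exact_mod_cast hL
  · change (1 : ℝ) ≤ ((L.divisors.filter (fun d => 1 < d)).card : ℝ)
    exact_mod_cast Finset.card_pos.2 ⟨3, h3m⟩
  · intro q hq hq6
    change (1 : ℝ) + 1 * ch (-3) q ≤
      ∑ d ∈ L.divisors.filter (fun d => 1 < d), (if q % d = 1 then (d.totient : ℝ) else 0)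
    have hq6' : ¬ q ∣ 6 * L := hq6
    have h2 : q % 2 = 1 := by
      rcases hq.eq_two_or_odd with h | h
      · exfalso
        apply hq6'
        rw [h]
        exact ⟨3 * L, by ring⟩
      · exact h
    have h30 : q % 3 ≠ 0 := by
      intro h
      have h' : 3 ∣ q := Nat.dvd_of_mod_eq_zero h
      have := (Nat.prime_dvd_prime_iff_eq Nat.prime_three hq).1 h'
      apply hq6'
      rw [← this]
      exact ⟨2 * L, by ring⟩
    rcases (by omega : q % 3 = 1 ∨ q % 3 = 2) with h | h
    · have h4 : (if q % 3 = 1 then ((3 : ℕ).totient : ℝ) else 0) ≤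
          ∑ d ∈ L.divisors.filter (fun d => 1 < d),
            (if q % d = 1 then (d.totient : ℝ) else 0) := by
        refine Finset.single_le_sum (f := fun d : ℕ => if q % d = 1 then (d.totient : ℝ) else 0)
          (fun d _ => ?_) h3m
        split_ifs
        · positivity
        · exact le_rfl
      rw [if_pos h, Nat.totient_prime Nat.prime_three] at h4
      have := ch_le_one (-3) q
      norm_num at h4
      linarith
    · rw [ch_three q h2 h]
      have := rho_ge L q
      linarith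
  · intro q
    exact ⟨rho_ge L q, rho_le L q⟩
  · intro q n hq
    change (∃ d : ℕ, 1 < d ∧ d ∣ L ∧ orderOf (((n + q ^ 2 : ℕ)) : ZMod q) = d) ↔
      ∃ d : ℕ, 1 < d ∧ d ∣ L ∧ orderOf (n : ZMod q) = d
    have h : ((n + q ^ 2 : ℕ) : ZMod q) = (n : ZMod q) := by
      push_cast
      rw [ZMod.natCast_self]
      ring
    rw [h]
  · intro q n hq hq6 hT
    obtain ⟨d, _, h2, h4⟩ := hT
    change (n : ZMod q) ^ L = 1
    rw [← orderOf_dvd_iff_pow_eq_one, h4]
    exact h2
  · intro q hq hq6
    have := Fact.mk hq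
    classical
    have h1 : ((range (q ^ 2)).filter (fun n => (datS L).T q n)).card =
        q * ((range q).filter (fun n => (datS L).T q n)).card := by
      rw [pow_two]
      refine card_range_mul q q _ fun n => ?_
      change (∃ d : ℕ, 1 < d ∧ d ∣ L ∧ orderOf (((n + q : ℕ)) : ZMod q) = d) ↔
        ∃ d : ℕ, 1 < d ∧ d ∣ L ∧ orderOf (n : ZMod q) = d
      have h : ((n + q : ℕ) : ZMod q) = (n : ZMod q) := by
        push_cast
        rw [ZMod.natCast_self]
        ring
      rw [h]
    have h2 : ((range q).filter (fun n => (datS L).T q n)).card =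
        ∑ d ∈ L.divisors.filter (fun d => 1 < d), (if q % d = 1 then d.totient else 0) := by
      rw [← card_T L q hL.ne' (fun x => ∃ d : ℕ, 1 < d ∧ d ∣ L ∧ orderOf x = d)
        (fun x => Iff.rfl)]
      exact card_range_zmod q (fun x => ∃ d : ℕ, 1 < d ∧ d ∣ L ∧ orderOf x = d)
    have h3' : (((range (q ^ 2)).filter (fun n => (datS L).T q n)).card : ℝ) =
        q * (datS L).ρ q := by
      rw [h1, h2]
      change ((q * ∑ d ∈ L.divisors.filter (fun d => 1 < d),
        (if q % d = 1 then d.totient else 0) : ℕ) : ℝ) = q *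
        ∑ d ∈ L.divisors.filter (fun d => 1 < d), (if q % d = 1 then (d.totient : ℝ) else 0)
      push_cast
      rfl
    have h4 : (0 : ℝ) ≤ (datS L).κ := by
      change (0 : ℝ) ≤ (L : ℝ)
      positivity
    convert h4 using 1
    rw [abs_eq_zero, sub_eq_zero, ← h3']
  · obtain ⟨C, hC⟩ := mert_all (L.divisors.filter (fun d => 1 < d))
      (fun d hd => (mem_filter.1 hd).2)
    refine ⟨2 * C, fun y z hy hz => ?_⟩
    change |∑ q ∈ PI y z, (∑ d ∈ L.divisors.filter (fun d => 1 < d),
      (if q % d = 1 then (d.totient : ℝ) else 0)) / q -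
      ((L.divisors.filter (fun d => 1 < d)).card : ℝ) *
        Real.log (Real.log z / Real.log y)| ≤ 2 * C
    have h1 := hC y hy
    have h2 := hC z (hy.trans hz)
    rw [sum_PI_sub _ y z hz, Real.log_div
      (Real.log_pos (by exact_mod_cast (by omega : 1 < z))).ne'
      (Real.log_pos (by exact_mod_cast (by omega : 1 < y))).ne']
    rw [abs_le] at h1 h2 ⊢
    constructor <;> nlinarith [h1.1, h1.2, h2.1, h2.2]

end Pool.Agent.W52.PQ
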