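import Pool.Agent.W114.PQ.Stm
import Pool.Agent.H951R4.OD.D1

set_option autoImplicit false

/-!
# Brun's pure sieve with moduli `p ^ 2` and means at most `κ / p`
-/

namespace Pool.Agent.W52.PQ

open Finset
open Pool.Agent.H951R4.OD Pool.Agent.H951R4.OD.D1 Pool.Agent.H177R2.SD Pool.Agent.W114.PQ

theorem sv : S_SV := by
  intro κ hκ
  obtain ⟨C2, hC2, hmert⟩ := mert_le
  have hκC : 0 ≤ κ * C2 := by nlinarith
  refine ⟨18 + 66 * κ + Real.exp (κ * C2) + 64 * (κ * C2), by linarith [Real.exp_pos (κ * C2)], ?_⟩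
  intro z N hz hN S h hS h01 hper hmean
  have hzR : (3 : ℝ) ≤ z := by exact_mod_cast hz
  have hκ0 : 0 < κ := by linarith
  set L := Real.log z with hL
  set LL := Real.log L with hLL
  have hL1 : 1 < L := by
    have : Real.log 3 ≤ L := Real.log_le_log (by norm_num) hzR
    have h3 : 1 < Real.log 3 := by
      rw [Real.lt_log_iff_exp_lt (by norm_num)]
      have := Real.exp_one_lt_d9
      linarith
    linarith
  have hLL0 : 0 < LL := Real.log_pos hL1
  set η : ℕ → ℝ := fun p => (∑ n ∈ range (p ^ 2), h p n) / (p : ℝ) ^ 2 with hη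
  have hηc : ∀ p, η p = (∑ n ∈ range (p ^ 2), h p n) / ((p ^ 2 : ℕ) : ℝ) := by
    intro p
    simp only [hη]
    push_cast
    rfl
  have hη01 : ∀ p ∈ S, 0 ≤ η p ∧ η p ≤ 1 := by
    intro p hp
    rw [hηc]
    apply AvgAux.mean_01
    intro n
    rcases h01 p hp n with h | h <;> rw [h] <;> norm_num
  set Λ := ∑ p ∈ S, η p with hΛ
  have hΛ0 : 0 ≤ Λ := Finset.sum_nonneg fun p hp => (hη01 p hp).1
  have hΛ1 : Λ ≤ κ * LL + κ * C2 := by
    have hsub : S ⊆ PI 0 z := by
      intro p hp
      obtain ⟨h1, h2⟩ := hS p hp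
      simp only [PI, mem_filter, mem_Ioc]
      exact ⟨⟨h1.pos, h2⟩, h1⟩
    have h1 : Λ ≤ ∑ p ∈ PI 0 z, κ * ((1 : ℝ) / p) := by
      calc Λ ≤ ∑ p ∈ S, κ * ((1 : ℝ) / p) := by
            apply Finset.sum_le_sum
            intro p hp
            have := hmean p hp
            simp only [hη]
            calc _ ≤ κ / (p : ℝ) := this
              _ = κ * (1 / p) := by ring
        _ ≤ _ := by
            apply Finset.sum_le_sum_of_subset_of_nonneg hsub
            intro p _ _
            positivity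
    rw [← Finset.mul_sum] at h1
    have h2 := (abs_le.1 (hmert z hz)).2
    have h3 : κ * (∑ p ∈ PI 0 z, (1 : ℝ) / p) ≤ κ * (LL + C2) :=
      mul_le_mul_of_nonneg_left (by linarith) hκ0.le
    linarith
  set r : ℕ := ⌈4 * (κ * LL + κ * C2)⌉₊ with hr
  have hr1 : 4 * (κ * LL + κ * C2) ≤ r := Nat.le_ceil _
  have hr2 : (r : ℝ) < 4 * (κ * LL + κ * C2) + 1 := Nat.ceil_lt_add_one (by positivity)
  -- N
  have hexpC : 0 < Real.exp (κ * C2) := Real.exp_pos _
  have hN1 : 1 ≤ N := by
    rcases Nat.eq_zero_or_pos N with h0 | h0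
    · subst h0
      simp only [Nat.cast_zero, Real.log_zero] at hN
      have : 0 < (18 + 66 * κ + Real.exp (κ * C2) + 64 * (κ * C2)) * L * (1 + LL) := by positivity
      linarith
    · exact h0
  have hNR : (0 : ℝ) < N := by exact_mod_cast hN1
  have hsq : Real.exp (Real.log N / 2) = Real.sqrt N := by
    rw [Real.sqrt_eq_rpow, Real.rpow_def_of_pos hNR]; congr 1; ring
  have hLLL : 0 ≤ L * (1 + LL) := by positivity
  -- z ^ (8 r) ≤ √N
  have hA : (z : ℝ) ^ (8 * r) ≤ Real.sqrt N := by
    rw [← hsq, ← Real.exp_log (show (0 : ℝ) < z by linarith), ← Real.exp_nat_mul]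
    apply Real.exp_le_exp.2
    push_cast
    rw [← hL]
    have h1 : 8 * (r : ℝ) * L ≤ (16 + 64 * κ + 64 * (κ * C2)) * L * (1 + LL) / 2 := by
      have h2 : 8 * (r : ℝ) ≤ 32 * (κ * LL) + 32 * (κ * C2) + 8 := by linarith
      have h3 : 8 * (r : ℝ) * L ≤ (32 * (κ * LL) + 32 * (κ * C2) + 8) * L :=
        mul_le_mul_of_nonneg_right h2 (by linarith)
      have h4 : 0 ≤ (κ * C2) * (L * LL) := by positivity
      have h5 : 0 ≤ L * LL := by positivity
      have h6 : 0 ≤ κ * L := by positivity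
      nlinarith
    have h6 : (16 + 64 * κ + 64 * (κ * C2)) * L * (1 + LL) ≤
        (18 + 66 * κ + Real.exp (κ * C2) + 64 * (κ * C2)) * L * (1 + LL) := by
      have : 0 ≤ (2 + 2 * κ + Real.exp (κ * C2)) * (L * (1 + LL)) := by positivity
      nlinarith
    linarith
  -- exp Λ ≤ exp (κ C2) √N
  have hB : Real.exp Λ ≤ Real.exp (κ * C2) * Real.sqrt N := by
    calc Real.exp Λ ≤ Real.exp (κ * LL + κ * C2) := Real.exp_le_exp.2 hΛ1
      _ = Real.exp (κ * C2) * Real.exp (κ * LL) := by rw [← Real.exp_add]; congr 1; ring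
      _ ≤ Real.exp (κ * C2) * Real.sqrt N := by
          apply mul_le_mul_of_nonneg_left _ hexpC.le
          rw [← hsq]
          apply Real.exp_le_exp.2
          have h1 : LL ≤ L := by
            have := Real.log_le_sub_one_of_pos (show 0 < L by linarith)
            linarith
          have h0 : κ * LL ≤ κ * L := mul_le_mul_of_nonneg_left h1 hκ0.le
          have h2 : 66 * κ * (L * 1) ≤ 66 * κ * (L * (1 + LL)) := by
            apply mul_le_mul_of_nonneg_left _ (by positivity)
            apply mul_le_mul_of_nonneg_left _ (by linarith)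
            linarith
          have h3 : 0 ≤ (18 + Real.exp (κ * C2) + 64 * (κ * C2)) * (L * (1 + LL)) := by positivity
          have h4 : 0 ≤ κ * L := by positivity
          nlinarith
  have hC : Real.sqrt N ≤ Real.exp (κ * C2) * (N * Real.exp (-Λ)) := by
    have h1 : Real.sqrt N * Real.exp Λ ≤ Real.exp (κ * C2) * N := by
      calc Real.sqrt N * Real.exp Λ ≤ Real.sqrt N * (Real.exp (κ * C2) * Real.sqrt N) :=
            mul_le_mul_of_nonneg_left hB (Real.sqrt_nonneg _)
        _ = Real.exp (κ * C2) * (Real.sqrt N * Real.sqrt N) := by ring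
        _ = Real.exp (κ * C2) * N := by rw [Real.mul_self_sqrt hNR.le]
    rw [Real.exp_neg, ← mul_assoc, ← div_eq_mul_inv, le_div_iff₀ (Real.exp_pos _)]
    exact h1
  -- Brun
  have hbr := brun (Icc 1 N) S h η
    (by
      intro p hp n _
      rcases h01 p hp n with h | h <;> rw [h] <;> norm_num) hη01 r (N : ℝ) ((z : ℝ) ^ (4 * r)) hNR.le (by positivity)
    (by
      intro T hT hcard
      have hmdpos : ∀ p ∈ T, 0 < (fun p : ℕ => p ^ 2) p := by
        intro p hp
        exact pow_pos (hS p (hT hp)).1.pos 2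
      have hcop : (T : Set ℕ).Pairwise fun p p' =>
          Nat.Coprime ((fun p : ℕ => p ^ 2) p) ((fun p : ℕ => p ^ 2) p') := by
        intro p hp p' hp' hne
        have hc : Nat.Coprime p p' := (Nat.coprime_primes (hS p (hT hp)).1 (hS p' (hT hp')).1).2 hne
        exact hc.pow 2 2
      have hav := avg1 T (fun p => p ^ 2) hmdpos hcop h
        (by
          intro p hp n
          rcases h01 p (hT hp) n with h | h <;> rw [h] <;> norm_num)
        (fun p hp => hper p (hT hp)) 1 N
      have hI : Ico 1 (1 + N) = Icc 1 N := by ext; simp only [mem_Ico, mem_Icc]; omega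
      rw [hI] at hav
      simp only [← hηc] at hav
      refine hav.trans ?_
      calc ∏ p ∈ T, ((p ^ 2 : ℕ) : ℝ) ≤ ∏ p ∈ T, (z : ℝ) ^ 2 := by
            apply Finset.prod_le_prod
            · intro p _; positivity
            · intro p hp
              have h2' : (p : ℝ) ≤ z := by exact_mod_cast (hS p (hT hp)).2
              push_cast
              exact pow_le_pow_left₀ (Nat.cast_nonneg _) h2' 2
        _ = (z : ℝ) ^ (2 * T.card) := by rw [Finset.prod_const, pow_mul]
        _ ≤ (z : ℝ) ^ (4 * r) := pow_le_pow_right₀ (by linarith) (by omega))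
  have hD : ((S.card : ℝ) + 1) ^ (2 * r) * (z : ℝ) ^ (4 * r) ≤ Real.sqrt N := by
    have hcard : S.card ≤ z := by
      have hsub : S ⊆ Icc 1 z := by
        intro p hp
        obtain ⟨h1, h2⟩ := hS p hp
        exact mem_Icc.2 ⟨h1.pos, h2⟩
      have := Finset.card_le_card hsub
      simpa using this
    have hcR : (S.card : ℝ) + 1 ≤ (z : ℝ) ^ 2 := by
      have : (S.card : ℝ) ≤ z := by exact_mod_cast hcard
      nlinarith
    calc ((S.card : ℝ) + 1) ^ (2 * r) * (z : ℝ) ^ (4 * r)
        ≤ ((z : ℝ) ^ 2) ^ (2 * r) * (z : ℝ) ^ (4 * r) := by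
          apply mul_le_mul_of_nonneg_right _ (by positivity)
          exact pow_le_pow_left₀ (by positivity) hcR _
      _ = (z : ℝ) ^ (8 * r) := by rw [← pow_mul, ← pow_add]; congr 1; ring
      _ ≤ _ := hA
  have hE : (∑ i ∈ S, η i) ^ (2 * r + 1) / ((2 * r + 1).factorial : ℝ) ≤ Real.exp (-Λ) := by
    apply pow_fact _ _ hΛ0
    push_cast
    linarith
  have hF := prod_exp S η hη01
  have hG : ∑ n ∈ Icc 1 N, ∏ p ∈ S, (1 - h p n) ≤
      N * (Real.exp (-Λ) + Real.exp (-Λ)) + Real.exp (κ * C2) * (N * Real.exp (-Λ)) := by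
    calc _ ≤ _ := hbr
      _ ≤ N * (Real.exp (-Λ) + Real.exp (-Λ)) + Real.sqrt N := by
          apply add_le_add _ hD
          apply mul_le_mul_of_nonneg_left _ hNR.le
          exact add_le_add hF hE
      _ ≤ _ := by linarith
  refine hG.trans ?_
  have hpos : 0 ≤ (N : ℝ) * Real.exp (-Λ) := by positivity
  have : 0 ≤ (16 + 66 * κ + 64 * (κ * C2)) * (N * Real.exp (-Λ)) := by positivity
  nlinarith

end Pool.Agent.W52.PQ
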